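import Pool.Agent.BEW.StmtsD

/-!
# Squad BEW, row BSL: Bessel and Parseval for finite sums
-/

set_option autoImplicit false

namespace Pool.Agent.BEW.H36

open Set Filter Topology MeasureTheory
open scoped InnerProductSpace ENNReal
open Pool.Agent.BE01 Pool.Agent.BEL Pool.Agent.BEG Pool.Agent.BEH Pool.Agent.BER

noncomputable section

theorem bint {X : Type} [MeasurableSpace X] {μ : Measure X} [IsFiniteMeasure μ] {f : X → ℝ}
    (hm : Measurable f) {C : ℝ} (hb : ∀ x, |f x| ≤ C) : Integrable f μ :=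
  Integrable.of_bound hm.aestronglyMeasurable C (ae_of_all _ fun x => by
    rw [Real.norm_eq_abs]; exact hb x)

theorem bint_mul {X : Type} [MeasurableSpace X] {μ : Measure X} [IsFiniteMeasure μ] {f g : X → ℝ}
    (hm : Measurable f) (hg : Measurable g) {C D : ℝ} (hb : ∀ x, |f x| ≤ C) (hd : ∀ x, |g x| ≤ D) :
    Integrable (fun x => f x * g x) μ := by
  refine bint (hm.mul hg) (C := C * D) fun x => ?_
  rw [abs_mul]
  exact mul_le_mul (hb x) (hd x) (abs_nonneg _) ((abs_nonneg _).trans (hb x))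

/-- Row BSL. -/
theorem bsl : BslStmt := by
  intro X _ μ b B m0 hO
  haveI := hO.fin
  have hbb : ∀ j k, Integrable (fun x => b j x * b k x) μ := fun j k =>
    bint_mul (hO.meas j) (hO.meas k) (hO.bdd j) (hO.bdd k)
  have hP : ∀ (S : Finset ℕ) (c : ℕ → ℝ),
      Integrable (fun x => (∑ k ∈ S, c k * b k x) ^ 2) μ ∧
      ∫ x, (∑ k ∈ S, c k * b k x) ^ 2 ∂μ = ∑ k ∈ S, c k ^ 2 := by
    intro S c
    have e : (fun x => (∑ k ∈ S, c k * b k x) ^ 2) = fun x => ∑ j ∈ S, ∑ k ∈ S,
        (c j * c k) * (b j x * b k x) := by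
      funext x
      rw [pow_two, Finset.sum_mul_sum]
      refine Finset.sum_congr rfl fun j _ => Finset.sum_congr rfl fun k _ => ?_
      ring
    have hi : ∀ j ∈ S, Integrable (fun x => ∑ k ∈ S, (c j * c k) * (b j x * b k x)) μ :=
      fun j _ => integrable_finsetSum _ fun k _ => (hbb j k).const_mul _
    rw [e]
    refine ⟨integrable_finsetSum _ hi, ?_⟩
    rw [integral_finsetSum _ hi]
    refine Finset.sum_congr rfl fun j hj => ?_
    rw [integral_finsetSum _ fun k _ => (hbb j k).const_mul _]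
    have e2 : ∀ k ∈ S, ∫ x, (c j * c k) * (b j x * b k x) ∂μ = if j = k then c j ^ 2 else 0 := by
      intro k _
      rw [integral_const_mul, hO.ort]
      split_ifs with h
      · subst h; ring
      · ring
    rw [Finset.sum_congr rfl e2, Finset.sum_ite_eq, if_pos hj]
  refine ⟨?_, fun S c => (hP S c).2⟩
  rintro S u hu ⟨C, hC⟩
  set c : ℕ → ℝ := fun k => ∫ x, u x * b k x ∂μ with hc
  have hub : ∀ k, Integrable (fun x => u x * b k x) μ := fun k =>
    bint_mul hu (hO.meas k) hC (hO.bdd k)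
  have huu : Integrable (fun x => u x ^ 2) μ := by
    have := bint_mul (μ := μ) hu hu hC hC
    refine this.congr (ae_of_all _ fun x => ?_)
    simp only []
    ring
  have hcr : Integrable (fun x => ∑ k ∈ S, (2 * c k) * (u x * b k x)) μ :=
    integrable_finsetSum _ fun k _ => (hub k).const_mul _
  have h0 : 0 ≤ ∫ x, (u x - ∑ k ∈ S, c k * b k x) ^ 2 ∂μ :=
    integral_nonneg fun x => sq_nonneg _
  have e : (fun x => (u x - ∑ k ∈ S, c k * b k x) ^ 2) = fun x =>
      u x ^ 2 - (∑ k ∈ S, (2 * c k) * (u x * b k x)) + (∑ k ∈ S, c k * b k x) ^ 2 := by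
    funext x
    have h1 : ∑ k ∈ S, (2 * c k) * (u x * b k x) = 2 * u x * ∑ k ∈ S, c k * b k x := by
      rw [Finset.mul_sum]
      refine Finset.sum_congr rfl fun k _ => ?_
      ring
    rw [h1]
    ring
  have hs : Integrable (fun x => u x ^ 2 - ∑ k ∈ S, (2 * c k) * (u x * b k x)) μ := huu.sub hcr
  rw [e, integral_add hs (hP S c).1, integral_sub huu hcr, (hP S c).2,
    integral_finsetSum _ fun k _ => (hub k).const_mul _] at h0
  have h2 : ∑ k ∈ S, ∫ x, (2 * c k) * (u x * b k x) ∂μ = 2 * ∑ k ∈ S, c k ^ 2 := by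
    rw [Finset.mul_sum]
    refine Finset.sum_congr rfl fun k _ => ?_
    rw [integral_const_mul]
    simp only [hc]
    ring
  rw [h2] at h0
  show ∑ k ∈ S, c k ^ 2 ≤ _
  linarith

end

end Pool.Agent.BEW.H36
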